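import Pool.Agent.Helper87_UT.Stmts

/-!
# CND: from the error on fixed graphs to the smoothed error
-/

set_option autoImplicit false

namespace Pool.Agent.UT.H39

open Finset
open Pool.Agent.Helper76_Bisect
open Pool.Agent.UT

theorem exists_small {g θ : ℝ} (hg : 0 < g) (hθ : 0 < θ) : ∃ n₁ : ℕ, ∀ n : ℕ, n₁ ≤ n →
    (2 : ℝ) ^ n * Real.exp (- ((g / 2) ^ 2 * (n : ℝ) ^ 2)) ≤ θ := by
  obtain ⟨N, hN⟩ := exists_nat_ge (8 / g ^ 2)
  obtain ⟨N', hN'⟩ := exists_nat_ge (1 / θ)
  refine ⟨max N N', fun n hn => ?_⟩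
  have hn1 : (8 : ℝ) / g ^ 2 ≤ n := hN.trans (by exact_mod_cast (le_max_left _ _).trans hn)
  have hn2 : 1 / θ ≤ (n : ℝ) := hN'.trans (by exact_mod_cast (le_max_right _ _).trans hn)
  have h2 : (2 : ℝ) ^ n ≤ Real.exp n := by
    have : (2 : ℝ) ≤ Real.exp 1 := by
      have := Real.add_one_le_exp (1 : ℝ); linarith
    calc (2 : ℝ) ^ n ≤ (Real.exp 1) ^ n := pow_le_pow_left₀ (by norm_num) this n
      _ = Real.exp n := by rw [← Real.exp_nat_mul]; simp
  have h3 : (8 : ℝ) ≤ n * g ^ 2 := by
    rwa [div_le_iff₀ (by positivity)] at hn1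
  have hpos : 0 < 1 / θ := by positivity
  calc (2 : ℝ) ^ n * Real.exp (- ((g / 2) ^ 2 * (n : ℝ) ^ 2))
      ≤ Real.exp n * Real.exp (- ((g / 2) ^ 2 * (n : ℝ) ^ 2)) :=
        mul_le_mul_of_nonneg_right h2 (Real.exp_pos _).le
    _ = Real.exp (n - (g / 2) ^ 2 * (n : ℝ) ^ 2) := by rw [← Real.exp_add]; congr 1
    _ ≤ Real.exp (-(n : ℝ)) := by
        apply Real.exp_le_exp.mpr
        nlinarith
    _ ≤ θ := by
        rw [Real.exp_neg]
        have h5 := Real.add_one_le_exp (n : ℝ)
        have h6 : 1 / θ ≤ Real.exp n := by linarith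
        rw [inv_le_comm₀ (Real.exp_pos _) hθ, ← one_div]
        exact h6

section
open Classical

/-- **CND** -/
theorem cnd : CndStmt := by
  intro ρ ε σ a err e h0 h1 hσ0 hσ1 hε0 hε1 haε herrb he hfix δ hδ
  obtain ⟨n₀, hn₀⟩ := hfix
  set η : ℝ := σ * (1 / 4 - 2 * ρ) with hη
  have hη0 : 0 < η := by linarith
  have hη1 : η ≤ 1 / 8 := by
    rw [hη]; nlinarith
  set θ : ℝ := min (δ / 4) (1 / 2) with hθ
  have hθ0 : 0 < θ := lt_min (by linarith) (by norm_num)
  have hθ1 : θ ≤ δ / 4 := min_le_left _ _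
  have hθ2 : θ ≤ 1 / 2 := min_le_right _ _
  obtain ⟨n₁, hn₁⟩ := exists_small hη0 hθ0
  have ha0 : (0 : ℝ) < a := lt_of_lt_of_le (by positivity) haε
  have h8 : 8 * (1 / (16 * (a : ℝ))) ≤ η / 2 := by
    have : 1 / (a : ℝ) ≤ ε := by
      rw [div_le_iff₀ ha0]
      rw [div_le_iff₀ hε0] at haε
      linarith
    have e1 : 8 * (1 / (16 * (a : ℝ))) = 1 / (a : ℝ) / 2 := by
      field_simp; norm_num
    rw [e1]; linarith
  have h8' : 0 ≤ 8 * (1 / (16 * (a : ℝ))) := by positivity
  set D : ℝ := 8 * (1 / (16 * (a : ℝ))) with hD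
  refine ⟨max n₀ n₁, fun n hn hne G => ?_⟩
  have hn0 : n₀ ≤ n := (le_max_left _ _).trans hn
  have hlarge := hn₁ n ((le_max_right _ _).trans hn)
  have hfixn := hn₀ n hn0 hne
  have hpos := fun T : SimpleGraph (Fin n) => toggleProb_nonneg hσ0.le (by linarith : σ ≤ 1) T
  have herr1 : ∀ G' : SimpleGraph (Fin n), err n G' ≤ 1 := fun G' => (herrb n G').2
  have herr0 : ∀ G' : SimpleGraph (Fin n), 0 ≤ err n G' := fun G' => (herrb n G').1
  show (∑ T : SimpleGraph (Fin n) with (RhoBisection ρ (symmDiff G T) ↔ RhoBisection ρ G),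
        toggleProb σ T * err n (symmDiff G T)) /
      (∑ T : SimpleGraph (Fin n) with (RhoBisection ρ (symmDiff G T) ↔ RhoBisection ρ G),
        toggleProb σ T) < 1 / 3 + δ
  set w : ℝ := ∑ T : SimpleGraph (Fin n) with (RhoBisection ρ (symmDiff G T) ↔ RhoBisection ρ G),
      toggleProb σ T with hw
  have hw0 : 0 ≤ w := Finset.sum_nonneg fun T _ => hpos T
  by_cases hG : RhoBisection ρ G
  · have hle : ∑ T : SimpleGraph (Fin n) with (RhoBisection ρ (symmDiff G T) ↔ RhoBisection ρ G),
        toggleProb σ T * err n (symmDiff G T) ≤ w * e := by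
      rw [hw, Finset.sum_mul]
      refine Finset.sum_le_sum fun T hT => ?_
      have hT' := (Finset.mem_filter.mp hT).2.mpr hG
      exact mul_le_mul_of_nonneg_left ((hfixn _).1 hT') (hpos T)
    rcases hw0.eq_or_lt with hw1 | hw1
    · rw [← hw1, div_zero]; linarith
    · have : (∑ T : SimpleGraph (Fin n) with (RhoBisection ρ (symmDiff G T) ↔ RhoBisection ρ G),
        toggleProb σ T * err n (symmDiff G T)) / w ≤ e := by
        rw [div_le_iff₀ hw1]; linarith
      linarith
  · set bad : SimpleGraph (Fin n) → Prop := fun T => ∃ S : Finset (Fin n), 2 * S.card = n ∧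
      (cutEdges (symmDiff G T) S : ℝ) ≤ (ρ + D) * (n : ℝ) ^ 2 with hbad
    have hpbad : ∑ T : SimpleGraph (Fin n) with bad T, toggleProb σ T ≤ θ := by
      refine (far_prob hσ0.le hσ1 (by linarith) (by linarith) G (r := ρ + D) (h := η / 2)
        ?_).trans hlarge
      intro S hS
      rw [mu_eq σ G S hS]
      have hcut : ρ * (n : ℝ) ^ 2 ≤ cutEdges G S := by
        by_contra hcon
        push Not at hcon
        exact hG ⟨S, hS, hcon.le⟩
      have hnn : (0 : ℝ) ≤ (n : ℝ) ^ 2 := by positivity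
      have e1 : ρ * (n : ℝ) ^ 2 * (1 - 2 * σ) ≤ (cutEdges G S : ℝ) * (1 - 2 * σ) :=
        mul_le_mul_of_nonneg_right hcut (by linarith)
      have e2 : ρ * (n : ℝ) ^ 2 * (1 - 2 * σ) + σ * ((n : ℝ) ^ 2 / 4) = (ρ + η) * (n : ℝ) ^ 2 := by
        rw [hη]; ring
      have e3 : (ρ + D + η / 2) * (n : ℝ) ^ 2 ≤ (ρ + η) * (n : ℝ) ^ 2 :=
        mul_le_mul_of_nonneg_right (by linarith) hnn
      linarith
    have hgoodbad : ∀ T, ¬ bad T → (RhoBisection ρ (symmDiff G T) ↔ RhoBisection ρ G) := by
      intro T hT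
      constructor
      · rintro ⟨S, hS1, hS2⟩
        exfalso
        refine hT ⟨S, hS1, hS2.trans ?_⟩
        have : (0 : ℝ) ≤ (n : ℝ) ^ 2 := by positivity
        nlinarith
      · intro h; exact absurd h hG
    have hw1 : 1 - θ ≤ w := by
      have h3 : ∑ T : SimpleGraph (Fin n) with ¬ bad T, toggleProb σ T ≤ w := by
        refine Finset.sum_le_sum_of_subset_of_nonneg ?_ (fun T _ _ => hpos T)
        intro T hT
        simp only [Finset.mem_filter, Finset.mem_univ, true_and] at hT ⊢
        exact hgoodbad T hT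
      have h4 := Finset.sum_filter_add_sum_filter_not univ bad (fun T => toggleProb σ T)
      rw [sum_toggleProb] at h4
      linarith
    have hfar : ∀ T, ¬ bad T → err n (symmDiff G T) ≤ e := by
      intro T hT
      refine (hfixn _).2 fun S hS => ?_
      by_contra hcon
      push Not at hcon
      exact hT ⟨S, hS, hcon.le⟩
    have hle : ∑ T : SimpleGraph (Fin n) with (RhoBisection ρ (symmDiff G T) ↔ RhoBisection ρ G),
        toggleProb σ T * err n (symmDiff G T) ≤ w * max e 0 + θ := by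
      calc ∑ T : SimpleGraph (Fin n) with (RhoBisection ρ (symmDiff G T) ↔ RhoBisection ρ G),
            toggleProb σ T * err n (symmDiff G T)
          ≤ ∑ T : SimpleGraph (Fin n) with (RhoBisection ρ (symmDiff G T) ↔ RhoBisection ρ G),
            (toggleProb σ T * max e 0 + if bad T then toggleProb σ T else 0) := by
            refine Finset.sum_le_sum fun T hT => ?_
            by_cases hT : bad T
            · rw [if_pos hT]
              have := mul_le_mul_of_nonneg_left (herr1 (symmDiff G T)) (hpos T)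
              have h5 : 0 ≤ toggleProb σ T * max e 0 := mul_nonneg (hpos T) (le_max_right _ _)
              linarith
            · rw [if_neg hT, add_zero]
              exact mul_le_mul_of_nonneg_left ((hfar _ hT).trans (le_max_left _ _)) (hpos T)
        _ = w * max e 0 + ∑ T : SimpleGraph (Fin n) with (RhoBisection ρ (symmDiff G T) ↔
            RhoBisection ρ G), (if bad T then toggleProb σ T else 0) := by
            rw [Finset.sum_add_distrib, ← Finset.sum_mul]
        _ ≤ w * max e 0 + ∑ T : SimpleGraph (Fin n), (if bad T then toggleProb σ T else 0) := by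
            refine add_le_add le_rfl ?_
            refine Finset.sum_le_sum_of_subset_of_nonneg (Finset.filter_subset _ _) ?_
            intro T _ _
            split_ifs
            · exact hpos T
            · exact le_rfl
        _ ≤ _ := by
            refine add_le_add le_rfl ?_
            rw [← Finset.sum_filter]
            exact hpbad
    have hw2 : 0 < w := by linarith
    have hm : max e 0 ≤ 1 / 3 := max_le he.le (by norm_num)
    rw [div_lt_iff₀ hw2]
    have h7 : w * max e 0 ≤ w * (1 / 3) := mul_le_mul_of_nonneg_left hm hw0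
    have h9 : θ < δ * w := by
      have : 1 / 2 ≤ w := by linarith
      nlinarith
    nlinarith

end

end Pool.Agent.UT.H39
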