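import Pool.Agent.Helper87_UT.Stmts

/-!
# TOT: the error of the tester on a fixed graph
-/

set_option autoImplicit false

namespace Pool.Agent.UT.H39

open Finset
open Pool.Agent.Helper76_Bisect
open Pool.Agent.UT

theorem length_tEnc (a : ℕ) (lab ans : List Bool) :
    (tEnc a lab ans).length = 3 * a + 3 * lab.length + 3 * ans.length := by
  have h1 : ((List.range a).flatMap (fun _ => [false, false, false])).length = 3 * a := by
    simp [List.length_flatMap, mul_comm]
  have h2 : ∀ l : List Bool, (l.flatMap (fun b => [true, false, b])).length = 3 * l.length := by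
    intro l; simp [List.length_flatMap, mul_comm]
  have h3 : ∀ l : List Bool, (l.flatMap (fun b => [true, true, b])).length = 3 * l.length := by
    intro l; simp [List.length_flatMap, mul_comm]
  unfold tEnc
  rw [List.length_append, List.length_append, h1, h2, h3]

section
open Classical

/-- restriction in both factors -/
theorem rst2 (hRST : RstStmt) {ι κ X ι' κ' Y : Type} [Fintype ι] [Fintype κ] [Fintype X]
    [Fintype ι'] [Fintype κ'] [Fintype Y] [DecidableEq ι] [DecidableEq κ] [DecidableEq ι']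
    [DecidableEq κ'] (φ : ι → κ) (ψ : ι' → κ')
    (hφ : Function.Injective φ) (hψ : Function.Injective ψ) (B : (ι → X) → (ι' → Y) → Prop) :
    (univ.filter fun z : (κ → X) × (κ' → Y) =>
      B (fun i => z.1 (φ i)) (fun i => z.2 (ψ i))).card *
      (Fintype.card X ^ Fintype.card ι * Fintype.card Y ^ Fintype.card ι') =
    (univ.filter fun w : (ι → X) × (ι' → Y) => B w.1 w.2).card *
      (Fintype.card X ^ Fintype.card κ * Fintype.card Y ^ Fintype.card κ') := by
  have key1 : ∀ (A C : Type) [Fintype A] [Fintype C] (R : A → C → Prop),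
      (univ.filter fun z : A × C => R z.1 z.2).card =
        ∑ y : C, (univ.filter fun x : A => R x y).card := by
    intro A C _ _ R
    rw [Finset.card_filter, Fintype.sum_prod_type_right]
    exact Finset.sum_congr rfl fun y _ => (Finset.card_filter _ _).symm
  have key2 : ∀ (A C : Type) [Fintype A] [Fintype C] (R : A → C → Prop),
      (univ.filter fun z : A × C => R z.1 z.2).card =
        ∑ x : A, (univ.filter fun y : C => R x y).card := by
    intro A C _ _ R
    rw [Finset.card_filter, Fintype.sum_prod_type]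
    exact Finset.sum_congr rfl fun y _ => (Finset.card_filter _ _).symm
  have e1 : (univ.filter fun z : (κ → X) × (κ' → Y) =>
      B (fun i => z.1 (φ i)) (fun i => z.2 (ψ i))).card * Fintype.card X ^ Fintype.card ι =
      (univ.filter fun z : (ι → X) × (κ' → Y) => B z.1 (fun i => z.2 (ψ i))).card *
        Fintype.card X ^ Fintype.card κ := by
    rw [key1 _ _ (fun (x : κ → X) (y : κ' → Y) => B (fun i => x (φ i)) (fun i => y (ψ i))),
      key1 _ _ (fun (x : ι → X) (y : κ' → Y) => B x (fun i => y (ψ i))), Finset.sum_mul,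
      Finset.sum_mul]
    exact Finset.sum_congr rfl fun y _ => hRST ι κ X φ (fun x => B x (fun i => y (ψ i))) hφ
  have e2 : (univ.filter fun z : (ι → X) × (κ' → Y) => B z.1 (fun i => z.2 (ψ i))).card *
      Fintype.card Y ^ Fintype.card ι' =
      (univ.filter fun w : (ι → X) × (ι' → Y) => B w.1 w.2).card *
        Fintype.card Y ^ Fintype.card κ' := by
    rw [key2 _ _ (fun (x : ι → X) (y : κ' → Y) => B x (fun i => y (ψ i))),
      key2 _ _ (fun (x : ι → X) (y : ι' → Y) => B x y), Finset.sum_mul, Finset.sum_mul]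
    exact Finset.sum_congr rfl fun x _ => hRST ι' κ' Y ψ (fun y => B x y) hψ
  calc _ = ((univ.filter fun z : (κ → X) × (κ' → Y) =>
      B (fun i => z.1 (φ i)) (fun i => z.2 (ψ i))).card * Fintype.card X ^ Fintype.card ι) *
        Fintype.card Y ^ Fintype.card ι' := by ring
    _ = ((univ.filter fun z : (ι → X) × (κ' → Y) => B z.1 (fun i => z.2 (ψ i))).card *
      Fintype.card Y ^ Fintype.card ι') * Fintype.card X ^ Fintype.card κ := by rw [e1]; ring
    _ = _ := by rw [e2]; ring

/-- the numbers of the coins which are used -/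
def phi {L P Q : ℕ} (h : L + 3 * P ≤ Q) : Fin L ⊕ Fin 3 × Fin P → Fin Q
  | .inl i => ⟨i.val, by have := i.isLt; omega⟩
  | .inr (k, j) => ⟨L + k.val * P + j.val, by
      have h1 := j.isLt
      have h2 : k.val * P ≤ 2 * P := Nat.mul_le_mul_right _ (by have := k.isLt; omega)
      omega⟩

theorem phi_injective {L P Q : ℕ} (h : L + 3 * P ≤ Q) : Function.Injective (phi h) := by
  rintro (i | ⟨k, j⟩) (i' | ⟨k', j'⟩) he
  · have : i.val = i'.val := Fin.mk.inj he
    rw [Fin.ext this]
  · have h1 : i.val = L + k'.val * P + j'.val := Fin.mk.inj he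
    have := i.isLt
    omega
  · have h1 : L + k.val * P + j.val = i'.val := Fin.mk.inj he
    have := i'.isLt
    omega
  · have h1 : L + k.val * P + j.val = L + k'.val * P + j'.val := Fin.mk.inj he
    have h2 : j.val + P * k.val = j'.val + P * k'.val := by
      rw [mul_comm P, mul_comm P]; omega
    have hj := j.isLt
    have hj' := j'.isLt
    have h3 : j.val = j'.val := by
      have := congrArg (· % P) h2
      simpa [Nat.add_mul_mod_self_left, Nat.mod_eq_of_lt hj, Nat.mod_eq_of_lt hj'] using this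
    have h4 : k.val = k'.val := by
      have := congrArg (· / P) h2
      simpa [Nat.add_mul_div_left _ _ (by omega : 0 < P), Nat.div_eq_of_lt hj,
        Nat.div_eq_of_lt hj'] using this
    rw [Fin.ext h3, Fin.ext h4]

theorem take_ofFn {Q L : ℕ} (h : L ≤ Q) (c : Fin Q → Bool) :
    (List.ofFn c).take L = List.ofFn fun i : Fin L => c ⟨i.val, by have := i.isLt; omega⟩ := by
  apply List.ext_getElem
  · simp [h]
  · intro i h1 h2
    simp

theorem drop_take_ofFn {Q s P : ℕ} (h : s + P ≤ Q) (c : Fin Q → Bool) :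
    ((List.ofFn c).drop s).take P =
      List.ofFn fun i : Fin P => c ⟨s + i.val, by have := i.isLt; omega⟩ := by
  apply List.ext_getElem
  · simp; omega
  · intro i h1 h2
    simp

/-- **TOT** -/
theorem tot (hPLY : PlyStmt) (hMAJ : MajStmt) (hRST : RstStmt) : TotStmt := by
  intro V p q fl a b n G c ans ha hn h1 h2 h3
  obtain ⟨hq1, hq2, hq3⟩ := h2
  have h1' : ∀ (x : List Bool) (m : ℕ), p.eval x.length = m →
      ((univ.filter fun r : Fin m → Bool =>
      ¬ (V (x, List.ofFn r) = true ↔ x ∈ tLang fl)).card : ℝ) ≤ 1 / 3 * 2 ^ m := by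
    rintro x m rfl
    convert h1 x
  set Q := q.eval (a + b) with hQ
  set L := 2 * tm a * tκ a with hL
  set N := tQ a with hN
  set P := p.eval (3 * a + 3 * L + 3 * (N * N)) with hP
  have hlen : ∀ (lab as : List Bool), lab.length = L → as.length = N * N →
      p.eval (tEnc a lab as).length = P := by
    intro lab as h4 h5
    rw [length_tEnc, h4, h5]
  have hLP : L + 3 * P ≤ Q := by
    have := hq3 (List.replicate L false) (List.replicate (N * N) false) (by simp) (by simp)
    rwa [hlen _ _ (by simp) (by simp)] at this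
  -- the word
  let wd : (Fin L → Bool) → (Fin N → Fin n) → List Bool := fun lab x =>
    tEnc a (List.ofFn lab) (ansS G x)
  have hans : ∀ x : Fin N → Fin n, (ansS G x).length = N * N := by
    intro x; simp [ansS, hN]
  have hwd : ∀ lab x, p.eval (wd lab x).length = P := by
    intro lab x
    exact hlen _ _ (by simp) (hans x)
  let B : (Fin L ⊕ Fin 3 × Fin P → Bool) → (Fin N → Fin n) → Prop := fun u x =>
    ¬ (maj3 (V (wd (fun i => u (.inl i)) x, List.ofFn fun j => u (.inr (0, j))))
      (V (wd (fun i => u (.inl i)) x, List.ofFn fun j => u (.inr (1, j))))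
      (V (wd (fun i => u (.inl i)) x, List.ofFn fun j => u (.inr (2, j)))) = true ↔ ans = true)
  let ψ : Fin N → Fin Q := fun i => ⟨i.val, lt_of_lt_of_le i.isLt hq2⟩
  have hψ : Function.Injective ψ := by
    intro i j hij
    exact Fin.ext (Fin.mk.inj hij)
  -- the run of the tester
  have hplay : ∀ z : (Fin Q → Bool) × (Fin Q → Fin n),
      (¬ (play (tNext V p) a b (List.ofFn z.1) (sampleAdj G z.2) Q [] = true ↔ ans = true)) ↔
      B (fun i => z.1 (phi hLP i)) (fun i => z.2 (ψ i)) := by
    intro z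
    have hp := hPLY V p a b Q (List.ofFn z.1) (sampleAdj G z.2) ha (by rw [← hN]; omega)
    have hc1 : (List.ofFn z.1).take L = List.ofFn fun i : Fin L => z.1 (phi hLP (.inl i)) := by
      rw [take_ofFn (by omega)]
      rfl
    have hc2 : ((List.range (N * N)).map fun c => sampleAdj G z.2 (c / N) (c % N)) =
        ansS G (fun i => z.2 (ψ i)) := by
      show _ = (List.range (N * N)).map fun c => sampleAdj G (fun i => z.2 (ψ i)) (c / N) (c % N)
      refine List.map_congr_left fun c hc => ?_
      rw [List.mem_range] at hc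
      have hN0 : 0 < N := by
        rcases Nat.eq_zero_or_pos N with h | h
        · rw [h] at hc; simp at hc
        · exact h
      have hd : c / N < N := Nat.div_lt_of_lt_mul hc
      have hm : c % N < N := Nat.mod_lt _ hN0
      unfold sampleAdj
      apply decide_eq_decide.2
      constructor
      · rintro ⟨hi, hj, hadj⟩
        exact ⟨hd, hm, hadj⟩
      · rintro ⟨hi, hj, hadj⟩
        exact ⟨by omega, by omega, hadj⟩
    rw [hp]
    simp only [← hN, ← hL, hc1, hc2]
    have hw : p.eval (tEnc a (List.ofFn fun i : Fin L => z.1 (phi hLP (.inl i)))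
        (ansS G fun i => z.2 (ψ i))).length = P := hwd _ _
    rw [hw]
    have hb : ∀ k : Fin 3, ((List.ofFn z.1).drop (L + k.val * P)).take P =
        List.ofFn fun j : Fin P => z.1 (phi hLP (.inr (k, j))) := by
      intro k
      have hk : k.val * P ≤ 2 * P := Nat.mul_le_mul_right _ (by have := k.isLt; omega)
      rw [drop_take_ofFn (by omega)]
      rfl
    have hb0 := hb 0
    have hb1 := hb 1
    have hb2 := hb 2
    simp only [Fin.val_zero, Fin.val_one, Fin.val_two] at hb0 hb1 hb2
    rw [hb0, hb1, hb2]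
  -- reduction to the coins which are used
  have hcard : ((univ.filter fun z : (Fin Q → Bool) × (Fin Q → Fin n) =>
      ¬ (play (tNext V p) a b (List.ofFn z.1) (sampleAdj G z.2) Q [] = true ↔
        ans = true)).card : ℝ) * (2 ^ (L + 3 * P) * (n : ℝ) ^ N) =
      ((univ.filter fun w : (Fin L ⊕ Fin 3 × Fin P → Bool) × (Fin N → Fin n) =>
        B w.1 w.2).card : ℝ) * (2 ^ Q * (n : ℝ) ^ Q) := by
    have := rst2 hRST (phi hLP) ψ (phi_injective hLP) hψ B
    rw [Finset.filter_congr fun z _ => hplay z]
    have h5 : Fintype.card (Fin L ⊕ Fin 3 × Fin P) = L + 3 * P := by simp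
    rw [h5] at this
    simp only [Fintype.card_bool, Fintype.card_fin] at this
    have h6 : (univ.filter fun z : (Fin Q → Bool) × (Fin Q → Fin n) =>
        B (fun i => z.1 (phi hLP i)) (fun i => z.2 (ψ i))).card * (2 ^ (L + 3 * P) * n ^ N) =
        (univ.filter fun w : (Fin L ⊕ Fin 3 × Fin P → Bool) × (Fin N → Fin n) =>
          B w.1 w.2).card * (2 ^ Q * n ^ Q) := by
      convert this
    have h7 := congrArg (Nat.cast : ℕ → ℝ) h6
    push_cast at h7
    convert h7
  -- the error on the coins which are used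
  let E : (Fin L ⊕ Fin 3 × Fin P → Bool) × (Fin N → Fin n) ≃
      ((Fin L → Bool) × (Fin N → Fin n)) × (Fin 3 → Fin P → Bool) :=
    { toFun := fun w => ((fun i => w.1 (.inl i), w.2), fun k j => w.1 (.inr (k, j)))
      invFun := fun w => (Sum.elim w.1.1 (fun kj => w.2 kj.1 kj.2), w.1.2)
      left_inv := by
        rintro ⟨u, x⟩
        ext i
        · rcases i with i | ⟨k, j⟩ <;> rfl
        · rfl
      right_inv := by
        rintro ⟨⟨l, x⟩, r⟩
        rfl }
  let bad1 : (Fin L → Bool) × (Fin N → Fin n) → Prop := fun z =>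
    ¬ (wd z.1 z.2 ∈ tLang fl ↔ ans = true)
  let cor : (Fin L → Bool) × (Fin N → Fin n) → (Fin P → Bool) → Bool := fun z r =>
    decide (V (wd z.1 z.2, List.ofFn r) = true ↔ wd z.1 z.2 ∈ tLang fl)
  have hB : ∀ w : (Fin L ⊕ Fin 3 × Fin P → Bool) × (Fin N → Fin n), B w.1 w.2 →
      bad1 (E w).1 ∨ maj3 (cor (E w).1 ((E w).2 0)) (cor (E w).1 ((E w).2 1))
        (cor (E w).1 ((E w).2 2)) = false := by
    intro w hw
    by_contra hcon
    push Not at hcon
    obtain ⟨hc1, hc2⟩ := hcon
    apply hw
    have hc1' : (wd (E w).1.1 (E w).1.2 ∈ tLang fl ↔ ans = true) := not_not.1 hc1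
    have hc2' : maj3 (cor (E w).1 ((E w).2 0)) (cor (E w).1 ((E w).2 1))
        (cor (E w).1 ((E w).2 2)) = true := by
      simpa using hc2
    rw [← hc1']
    change maj3 (V (wd (E w).1.1 (E w).1.2, List.ofFn ((E w).2 0)))
      (V (wd (E w).1.1 (E w).1.2, List.ofFn ((E w).2 1)))
      (V (wd (E w).1.1 (E w).1.2, List.ofFn ((E w).2 2))) = true ↔ _
    simp only [cor, maj3, Bool.or_eq_true, Bool.and_eq_true, decide_eq_true_eq] at hc2' ⊢
    by_cases hT : wd (E w).1.1 (E w).1.2 ∈ tLang fl
    · simp only [hT, iff_true] at hc2' ⊢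
      tauto
    · simp only [hT, iff_false] at hc2' ⊢
      tauto
  have hX : ((Fintype.card (Fin P → Bool) : ℕ) : ℝ) = 2 ^ P := by simp
  have hmaj : ∀ z : (Fin L → Bool) × (Fin N → Fin n),
      ((univ.filter fun r : Fin 3 → Fin P → Bool =>
        maj3 (cor z (r 0)) (cor z (r 1)) (cor z (r 2)) = false).card : ℝ) ≤
        7 / 27 * (2 ^ P) ^ 3 := by
    intro z
    have := hMAJ (Fin P → Bool) (cor z) (by
      have h6 := h1' (wd z.1 z.2) P (hwd _ _)
      rw [hX]
      refine le_trans (le_of_eq ?_) h6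
      congr 2
      ext r
      simp only [cor, decide_eq_false_iff_not, Finset.mem_filter, Finset.mem_univ, true_and])
    rw [hX] at this
    convert this
  have hsum : ((univ.filter fun w : (Fin L ⊕ Fin 3 × Fin P → Bool) × (Fin N → Fin n) =>
        B w.1 w.2).card : ℝ) ≤ (c + 7 / 27) * (2 ^ (L + 3 * P) * (n : ℝ) ^ N) := by
    have s1 : (univ.filter fun w : (Fin L ⊕ Fin 3 × Fin P → Bool) × (Fin N → Fin n) =>
        B w.1 w.2).card ≤ (univ.filter fun w : ((Fin L → Bool) × (Fin N → Fin n)) ×
          (Fin 3 → Fin P → Bool) => bad1 w.1 ∨ maj3 (cor w.1 (w.2 0)) (cor w.1 (w.2 1))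
            (cor w.1 (w.2 2)) = false).card := by
      refine Finset.card_le_card_of_injOn E ?_ (E.injective.injOn)
      intro w hw
      simp only [Finset.coe_filter, Finset.mem_univ, true_and, Set.mem_ofPred_eq] at hw ⊢
      exact hB w hw
    have s2 : (univ.filter fun w : ((Fin L → Bool) × (Fin N → Fin n)) ×
          (Fin 3 → Fin P → Bool) => bad1 w.1 ∨ maj3 (cor w.1 (w.2 0)) (cor w.1 (w.2 1))
            (cor w.1 (w.2 2)) = false).card ≤
        (univ.filter fun w : ((Fin L → Bool) × (Fin N → Fin n)) ×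
          (Fin 3 → Fin P → Bool) => bad1 w.1).card +
        (univ.filter fun w : ((Fin L → Bool) × (Fin N → Fin n)) ×
          (Fin 3 → Fin P → Bool) => maj3 (cor w.1 (w.2 0)) (cor w.1 (w.2 1))
            (cor w.1 (w.2 2)) = false).card := by
      rw [Finset.filter_or]
      exact Finset.card_union_le _ _
    have s3 : ((univ.filter fun w : ((Fin L → Bool) × (Fin N → Fin n)) ×
          (Fin 3 → Fin P → Bool) => bad1 w.1).card : ℝ) ≤
        c * (2 ^ L * (n : ℝ) ^ N) * (2 ^ P) ^ 3 := by
      have e1 : (univ.filter fun w : ((Fin L → Bool) × (Fin N → Fin n)) ×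
          (Fin 3 → Fin P → Bool) => bad1 w.1) =
          (univ.filter fun z : (Fin L → Bool) × (Fin N → Fin n) => bad1 z) ×ˢ univ := by
        ext w
        simp
      rw [e1, Finset.card_product]
      have e2 : ((univ : Finset (Fin 3 → Fin P → Bool)).card : ℝ) = (2 ^ P) ^ 3 := by
        simp
      push_cast
      rw [e2]
      refine mul_le_mul_of_nonneg_right ?_ (by positivity)
      convert h3
    have s4 : ((univ.filter fun w : ((Fin L → Bool) × (Fin N → Fin n)) ×
          (Fin 3 → Fin P → Bool) => maj3 (cor w.1 (w.2 0)) (cor w.1 (w.2 1))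
            (cor w.1 (w.2 2)) = false).card : ℝ) ≤
        (2 ^ L * (n : ℝ) ^ N) * (7 / 27 * (2 ^ P) ^ 3) := by
      rw [Finset.card_filter, Fintype.sum_prod_type]
      push_cast
      have e3 : ∀ z : (Fin L → Bool) × (Fin N → Fin n),
          (∑ r : Fin 3 → Fin P → Bool, (if maj3 (cor z (r 0)) (cor z (r 1))
            (cor z (r 2)) = false then (1 : ℝ) else 0)) ≤ 7 / 27 * (2 ^ P) ^ 3 := by
        intro z
        refine le_trans (le_of_eq ?_) (hmaj z)
        rw [Finset.card_filter]
        push_cast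
        rfl
      refine (Finset.sum_le_sum fun z _ => e3 z).trans (le_of_eq ?_)
      rw [Finset.sum_const, nsmul_eq_mul]
      congr 1
      simp
    have s5 : ((univ.filter fun w : (Fin L ⊕ Fin 3 × Fin P → Bool) × (Fin N → Fin n) =>
        B w.1 w.2).card : ℝ) ≤ c * (2 ^ L * (n : ℝ) ^ N) * (2 ^ P) ^ 3 +
        (2 ^ L * (n : ℝ) ^ N) * (7 / 27 * (2 ^ P) ^ 3) := by
      refine le_trans ?_ (add_le_add s3 s4)
      exact_mod_cast s1.trans s2
    refine s5.trans (le_of_eq ?_)
    rw [pow_add, mul_comm 3 P, pow_mul]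
    ring
  have hcardQ : ((Fintype.card ((Fin Q → Bool) × (Fin Q → Fin n)) : ℕ) : ℝ) =
      2 ^ Q * (n : ℝ) ^ Q := by simp
  rw [hcardQ]
  have hnR : (0 : ℝ) < n := by exact_mod_cast hn
  have hpos : (0 : ℝ) < 2 ^ (L + 3 * P) * (n : ℝ) ^ N := by positivity
  have hfin : ((univ.filter fun z : (Fin Q → Bool) × (Fin Q → Fin n) =>
      ¬ (play (tNext V p) a b (List.ofFn z.1) (sampleAdj G z.2) Q [] = true ↔
        ans = true)).card : ℝ) ≤ (c + 7 / 27) * (2 ^ Q * (n : ℝ) ^ Q) := by
    have h7 : (0 : ℝ) ≤ 2 ^ Q * (n : ℝ) ^ Q := by positivity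
    have h8 := mul_le_mul_of_nonneg_right hsum h7
    rw [← hcard] at h8
    have h9 : ((univ.filter fun z : (Fin Q → Bool) × (Fin Q → Fin n) =>
      ¬ (play (tNext V p) a b (List.ofFn z.1) (sampleAdj G z.2) Q [] = true ↔
        ans = true)).card : ℝ) * (2 ^ (L + 3 * P) * (n : ℝ) ^ N) ≤
        ((c + 7 / 27) * (2 ^ Q * (n : ℝ) ^ Q)) * (2 ^ (L + 3 * P) * (n : ℝ) ^ N) := by
      refine h8.trans (le_of_eq ?_)
      ring
    exact le_of_mul_le_mul_right h9 hpos
  convert hfin

end

end Pool.Agent.UT.H39
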